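import Pool.Agent.WR2.StmtsC

/-!
# Squad WR2, row BSM (helper67)
-/

set_option autoImplicit false

namespace Pool.Agent.WR2.H67

open Pool.Agent.WIR Pool.Agent.WR2
open scoped BigOperators ENNReal

theorem bsm (hT : TrfStmt) : BsmStmt := by
  intro t q N f B hB hf0 hf hN
  have h1 : ∑ a ∈ Finset.Icc 1 (3 ^ q), AO t f a =
      ∑ l ∈ WS t, ∑ a ∈ Finset.Icc 1 (3 ^ q), (3 ^ l / 2 ^ t : ℝ) * PS t l (f l) a := by
    unfold AO
    exact Finset.sum_comm
  have h2 : ∀ l ∈ WS t, ∑ a ∈ Finset.Icc 1 (3 ^ q), (3 ^ l / 2 ^ t : ℝ) * PS t l (f l) a ≤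
      2 * 3 ^ q * B := by
    intro l hl
    obtain ⟨hLv, hav⟩ := hf l hl
    have hl2 : 2000 * l ≤ 1001 * t := (Finset.mem_filter.1 hl).2.2
    have hc : 3 ^ (N + l) ≤ 2 ^ t * 3 ^ q := by
      by_cases hle : N + l ≤ q
      · calc 3 ^ (N + l) ≤ 3 ^ q := Nat.pow_le_pow_right (by norm_num) hle
          _ ≤ 2 ^ t * 3 ^ q := Nat.le_mul_of_pos_left _ (by positivity)
      · obtain ⟨d, hd⟩ : ∃ d, N + l = d + q := ⟨N + l - q, by omega⟩
        have hd8 : 8 * d ≤ 5 * t := by omega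
        have h5 : (3 ^ d) ^ 5 ≤ (2 ^ t) ^ 5 := by
          calc (3 ^ d) ^ 5 = (3 ^ 5) ^ d := by rw [← pow_mul, ← pow_mul, mul_comm]
            _ ≤ (2 ^ 8) ^ d := Nat.pow_le_pow_left (by norm_num) d
            _ = 2 ^ (8 * d) := by rw [← pow_mul]
            _ ≤ 2 ^ (5 * t) := Nat.pow_le_pow_right (by norm_num) hd8
            _ = (2 ^ t) ^ 5 := by rw [← pow_mul, mul_comm]
        have h6 : 3 ^ d ≤ 2 ^ t := (Nat.pow_le_pow_iff_left (by norm_num)).1 h5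
        rw [hd, pow_add]
        exact Nat.mul_le_mul_right _ h6
    have h3 := hT N (3 ^ q) t l (f l) (hf0 l) hLv hc
    have h4 : (2 : ℝ) * ((3 ^ q : ℕ) : ℝ) * av N (f l) ≤ 2 * 3 ^ q * B := by
      push_cast
      exact mul_le_mul_of_nonneg_left hav (by positivity)
    exact h3.trans h4
  rw [h1]
  have h5 := Finset.sum_le_card_nsmul (WS t) _ _ h2
  refine h5.trans ?_
  rw [nsmul_eq_mul]
  have h6 : ((WS t).card : ℝ) ≤ (t : ℝ) + 1 := by
    have h7 : (WS t).card ≤ t + 1 := by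
      have h8 := Finset.card_filter_le (Finset.range (t + 1))
        (fun l => 999 * t ≤ 2000 * l ∧ 2000 * l ≤ 1001 * t)
      rw [Finset.card_range] at h8
      exact h8
    exact_mod_cast h7
  have h9 : (0 : ℝ) ≤ 2 * 3 ^ q * B := by positivity
  have h10 := mul_le_mul_of_nonneg_right h6 h9
  have e : 2 * 3 ^ q * ((t : ℝ) + 1) * B = ((t : ℝ) + 1) * (2 * 3 ^ q * B) := by ring
  rw [e]
  exact h10

end Pool.Agent.WR2.H67
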